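import Pool.Agent.H98.SLN.Targets

/-!
# The slope of the copolymer critical curve near `α = 1`: the tilted mean of the neutral
stretches (helper88)
-/

set_option autoImplicit false

open MeasureTheory ProbabilityTheory Filter Topology
open scoped ENNReal
open Pool.Agent.H95 Pool.Agent.H95.Cop
open Pool.Agent.H55.CG (pz VV Mo)
open Pool.Agent.H98.CE (pc WB HK OBJ)
open Pool.Agent.H96.Cop (ex pk Wn chargeLaw)
open Pool.Agent.H99.CE (NX)

namespace Pool.Agent.H88.SLN

open Pool.Agent.H98.SLN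

/-- exponential of the charge of the first `n` sites -/
noncomputable def eu (u : ℝ) (n : ℕ) (x : ℕ → ℝ) : ℝ≥0∞ := ENNReal.ofReal (Real.exp (u * H x 0 n))

lemma eu_def (u : ℝ) (n : ℕ) (x : ℕ → ℝ) :
    eu u n x = ENNReal.ofReal (Real.exp (u * H x 0 n)) := rfl

lemma eu_meas (u : ℝ) (n : ℕ) : Measurable (eu u n) := by
  unfold eu H
  fun_prop

lemma eu_dep (u : ℝ) (n : ℕ) : DepLt n (eu u n) := by
  intro x x' h
  unfold eu H
  congr 3
  apply Finset.sum_congr rfl
  intro i hi
  exact h i (Finset.mem_Ico.mp hi).2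

lemma eu_add (u : ℝ) (a b : ℕ) (x : ℕ → ℝ) :
    eu u (a + b) x = eu u a x * eu u b (shift a x) := by
  unfold eu
  rw [Pool.Agent.H96.Cop.H_shift, ← ENNReal.ofReal_mul (Real.exp_pos _).le, ← Real.exp_add]
  congr 2
  rw [← mul_add]
  congr 1
  unfold H
  rw [zero_add, add_comm b a]
  exact (Finset.sum_Ico_consecutive x (Nat.zero_le a) (Nat.le_add_right a b)).symm

lemma ex_mul_eu (u : ℝ) (n : ℕ) (x : ℕ → ℝ) : ex 0 n x * eu u n x = eu (1 + u) n x := by
  unfold eu Pool.Agent.H96.Cop.ex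
  rw [← ENNReal.ofReal_mul (Real.exp_pos _).le, ← Real.exp_add]
  congr 2
  ring

lemma Mo_nn (ν : Measure ℝ) (u : ℝ) : 0 ≤ Mo ν u :=
  integral_nonneg fun _ => (Real.exp_pos _).le

lemma lint_eu (hEXM : T_EXM) (ν : Measure ℝ) [IsProbabilityMeasure ν]
    (hν : ∀ t : ℝ, Integrable (fun z => Real.exp (t * z)) ν) (u : ℝ) (n : ℕ) :
    ∫⁻ x, eu u n x ∂(iid ν) = ENNReal.ofReal (Mo ν u ^ n) :=
  (hEXM ν hν 0 n le_rfl).2 u

lemma cosh_le' (y : ℝ) (h0 : 0 ≤ y) (h1 : y ≤ 1) : Real.cosh y ≤ 1 + y ^ 2 := by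
  have h2 := Real.cosh_le_exp_half_sq y
  have h3 : 0 ≤ y ^ 2 / 2 := by positivity
  have h4 : y ^ 2 / 2 ≤ 1 / 2 := by nlinarith
  have h5 := Real.exp_bound_div_one_sub_of_interval h3 (by linarith)
  have h6 : 1 / (1 - y ^ 2 / 2) ≤ 1 + y ^ 2 := by
    rw [div_le_iff₀ (by linarith)]
    nlinarith
  linarith

/-- the partial excursions -/
lemma lint_part (hEXM : T_EXM) (ν : Measure ℝ) [IsProbabilityMeasure ν]
    (hν : ∀ t : ℝ, Integrable (fun z => Real.exp (t * z)) ν) (v ρ τ : ℝ) (hρ : 0 < ρ)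
    (hτ : 0 ≤ τ) (h1 : Mo ν v ≤ ρ * Real.exp τ) (h2 : Mo ν (1 + v) ≤ ρ * Real.exp (-τ))
    (p : Bool) (n : ℕ) :
    ∫⁻ x, (if p then ex 0 n x else 1) * eu v n x ∂(iid ν) ≤
      ENNReal.ofReal ((ρ * Real.exp τ) ^ n) := by
  cases p with
  | false =>
    simp only [Bool.false_eq_true, if_false, one_mul]
    rw [lint_eu hEXM ν hν]
    exact ENNReal.ofReal_le_ofReal (pow_le_pow_left₀ (Mo_nn ν v) h1 n)
  | true =>
    simp only [if_true, ex_mul_eu]
    rw [lint_eu hEXM ν hν]
    apply ENNReal.ofReal_le_ofReal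
    apply pow_le_pow_left₀ (Mo_nn ν _)
    refine h2.trans (mul_le_mul_of_nonneg_left ?_ hρ.le)
    exact Real.exp_le_exp.mpr (by linarith)

lemma part_meas (p : Bool) (v : ℝ) (n : ℕ) :
    Measurable (fun x : ℕ → ℝ => (if p then ex 0 n x else 1) * eu v n x) := by
  cases p with
  | false => simpa using eu_meas v n
  | true =>
    simp only [if_true, ex_mul_eu]
    exact eu_meas _ n

lemma part_dep (p : Bool) (v : ℝ) (n : ℕ) :
    DepLt n (fun x : ℕ → ℝ => (if p then ex 0 n x else 1) * eu v n x) := by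
  cases p with
  | false => simpa using eu_dep v n
  | true =>
    simp only [if_true, ex_mul_eu]
    exact eu_dep _ n

/-- one excursion -/
lemma lint_w0 (hEXM : T_EXM) (K : PMF ℕ) (ν : Measure ℝ) [IsProbabilityMeasure ν]
    (hν : ∀ t : ℝ, Integrable (fun z => Real.exp (t * z)) ν) (k : ℕ) (v ρ τ : ℝ) (hρ : 0 < ρ)
    (hτ : 0 ≤ τ) (hτk : τ * k ≤ 1) (h1 : Mo ν v ≤ ρ * Real.exp τ)
    (h2 : Mo ν (1 + v) ≤ ρ * Real.exp (-τ)) (m : ℕ) :
    ∫⁻ x, Pool.Agent.H99.CE.w0 K k k m x * eu v m x ∂(iid ν) ≤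
      ENNReal.ofReal (ρ ^ m * kt K k τ m) := by
  unfold kt Pool.Agent.H99.CE.w0 Pool.Agent.H99.CE.wa Pool.Agent.H99.CE.wb
  split_ifs with h
  · have hint : ∀ x : ℕ → ℝ, (pk K m * 2⁻¹ + pk K m * 2⁻¹ * ex 0 m x) * eu v m x =
        pk K m * 2⁻¹ * eu v m x + pk K m * 2⁻¹ * eu (1 + v) m x := by
      intro x
      rw [← ex_mul_eu]
      ring
    simp_rw [hint]
    rw [lintegral_add_left ((eu_meas v m).const_mul _), lintegral_const_mul _ (eu_meas v m),
      lintegral_const_mul _ (eu_meas _ m), lint_eu hEXM ν hν, lint_eu hEXM ν hν]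
    have hk0 := kk_nonneg K m
    have e2 : (2⁻¹ : ℝ≥0∞) = ENNReal.ofReal (2⁻¹) := by
      rw [ENNReal.ofReal_inv_of_pos (by norm_num)]
      norm_num
    have m1 : 0 ≤ Mo ν v ^ m := pow_nonneg (Mo_nn ν _) m
    have m2 : 0 ≤ Mo ν (1 + v) ^ m := pow_nonneg (Mo_nn ν _) m
    unfold Pool.Agent.H96.Cop.pk
    rw [e2, ← ENNReal.ofReal_mul hk0, ← ENNReal.ofReal_mul (by positivity),
      ← ENNReal.ofReal_mul (by positivity), ← ENNReal.ofReal_add (by positivity) (by positivity)]
    apply ENNReal.ofReal_le_ofReal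
    have a1 : Mo ν v ^ m ≤ ρ ^ m * Real.exp (τ * m) := by
      calc Mo ν v ^ m ≤ (ρ * Real.exp τ) ^ m := pow_le_pow_left₀ (Mo_nn ν _) h1 m
        _ = ρ ^ m * Real.exp (τ * m) := by
          rw [mul_pow, ← Real.exp_nat_mul]
          congr 2
          ring
    have a2 : Mo ν (1 + v) ^ m ≤ ρ ^ m * Real.exp (-(τ * m)) := by
      calc Mo ν (1 + v) ^ m ≤ (ρ * Real.exp (-τ)) ^ m := pow_le_pow_left₀ (Mo_nn ν _) h2 m
        _ = ρ ^ m * Real.exp (-(τ * m)) := by
          rw [mul_pow, ← Real.exp_nat_mul]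
          congr 2
          ring
    have hm : (m : ℝ) ≤ k := by exact_mod_cast h
    have hy1 : τ * m ≤ 1 := le_trans (mul_le_mul_of_nonneg_left hm hτ) hτk
    have hc := cosh_le' (τ * m) (by positivity) hy1
    have hρm : 0 < ρ ^ m := by positivity
    calc kk K m * 2⁻¹ * Mo ν v ^ m + kk K m * 2⁻¹ * Mo ν (1 + v) ^ m
        ≤ kk K m * 2⁻¹ * (ρ ^ m * Real.exp (τ * m)) +
          kk K m * 2⁻¹ * (ρ ^ m * Real.exp (-(τ * m))) := by
          gcongr
      _ = ρ ^ m * (kk K m * Real.cosh (τ * m)) := by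
          rw [Real.cosh_eq]
          ring
      _ ≤ ρ ^ m * (kk K m * (1 + (τ * m) ^ 2)) := by
          gcongr
  · simp

lemma kt_nonneg (K : PMF ℕ) (k : ℕ) (τ : ℝ) (m : ℕ) : 0 ≤ kt K k τ m := by
  unfold kt
  split_ifs
  · have := kk_nonneg K m
    positivity
  · exact le_rfl

/-- the stretches -/
lemma lint_PF (hPFM : Pool.Agent.H99.CE.T_PFM) (hEXM : T_EXM) (K : PMF ℕ) (ν : Measure ℝ)
    [IsProbabilityMeasure ν] (hν : ∀ t : ℝ, Integrable (fun z => Real.exp (t * z)) ν) (k : ℕ)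
    (v ρ τ : ℝ) (hρ : 0 < ρ) (hτ : 0 ≤ τ) (hτk : τ * k ≤ 1) (h1 : Mo ν v ≤ ρ * Real.exp τ)
    (h2 : Mo ν (1 + v) ≤ ρ * Real.exp (-τ)) (s : ℕ) :
    ∫⁻ x, Pool.Agent.H99.CE.PF (Pool.Agent.H99.CE.w0 K k k) s x * eu v s x ∂(iid ν) ≤
      ENNReal.ofReal (ρ ^ s * uu (kt K k τ) s) := by
  have hWR := (hPFM.2 K).2 k k
  have hPF := (hPFM.1 _ hWR).1
  induction s using Nat.strong_induction_on with
  | _ s ih =>
    cases s with
    | zero =>
      simp [Pool.Agent.H99.CE.PF_zero, eu, H, uu_zero]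
    | succ s =>
      have hint : ∀ x : ℕ → ℝ,
          Pool.Agent.H99.CE.PF (Pool.Agent.H99.CE.w0 K k k) (s + 1) x * eu v (s + 1) x =
          ∑ j ∈ Finset.range (s + 1),
            (Pool.Agent.H99.CE.w0 K k k (j + 1) x * eu v (j + 1) x) *
            ((fun y => Pool.Agent.H99.CE.PF (Pool.Agent.H99.CE.w0 K k k) (s - j) y *
              eu v (s - j) y) (shift (j + 1) x)) := by
        intro x
        rw [Pool.Agent.H99.CE.PF_succ, Finset.sum_mul]
        apply Finset.sum_congr rfl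
        intro j hj
        rw [Finset.mem_range] at hj
        have hs : s + 1 = (j + 1) + (s - j) := by omega
        have h3 : eu v (s + 1) x = eu v (j + 1) x * eu v (s - j) (shift (j + 1) x) := by
          rw [← eu_add, ← hs]
        rw [h3]
        ring
      simp_rw [hint]
      rw [lintegral_finsetSum]
      · rw [uu_succ, Finset.mul_sum, ENNReal.ofReal_sum_of_nonneg]
        · apply Finset.sum_le_sum
          intro j hj
          rw [Finset.mem_range] at hj
          have hm1 : Measurable (fun x => Pool.Agent.H99.CE.w0 K k k (j + 1) x * eu v (j + 1) x) :=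
            (hWR (j + 1)).1.mul (eu_meas v _)
          have hd1 : DepLt (j + 1)
              (fun x => Pool.Agent.H99.CE.w0 K k k (j + 1) x * eu v (j + 1) x) := by
            intro x x' h
            simp only
            rw [(hWR (j + 1)).2.1 x x' h, eu_dep v (j + 1) x x' h]
          have hm2 : Measurable (fun y => Pool.Agent.H99.CE.PF (Pool.Agent.H99.CE.w0 K k k) (s - j) y *
              eu v (s - j) y) := (hPF (s - j)).1.mul (eu_meas v _)
          have h4 := Pool.Agent.H96.Cop.lint_mul_shift ν hd1 hm1 hm2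
          refine h4.le.trans ?_
          have h5 := lint_w0 hEXM K ν hν k v ρ τ hρ hτ hτk h1 h2 (j + 1)
          have h6 := ih (s - j) (by omega)
          have k1 := kt_nonneg K k τ (j + 1)
          refine (mul_le_mul' h5 h6).trans ?_
          rw [← ENNReal.ofReal_mul (by positivity)]
          apply ENNReal.ofReal_le_ofReal
          apply le_of_eq
          have hs : ρ ^ (s + 1) = ρ ^ (j + 1) * ρ ^ (s - j) := by
            rw [← pow_add]
            congr 1
            omega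
          rw [hs]
          ring
        · intro j _
          have k1 := kt_nonneg K k τ (j + 1)
          have k2 := uu_nonneg (kt K k τ) (kt_nonneg K k τ) (s - j)
          positivity
      · intro j _
        exact ((hWR (j + 1)).1.mul (eu_meas v _)).mul
          (((hPF (s - j)).1.mul (eu_meas v _)).comp (measurable_shift _))

/-- one term of `NX` -/
lemma lint_term (hPFM : Pool.Agent.H99.CE.T_PFM) (hEXM : T_EXM) (K : PMF ℕ) (ν : Measure ℝ)
    [IsProbabilityMeasure ν] (hν : ∀ t : ℝ, Integrable (fun z => Real.exp (t * z)) ν) (k : ℕ)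
    (v ρ τ : ℝ) (hρ : 0 < ρ) (hτ : 0 ≤ τ) (hτk : τ * k ≤ 1) (h1 : Mo ν v ≤ ρ * Real.exp τ)
    (h2 : Mo ν (1 + v) ≤ ρ * Real.exp (-τ)) (p q : Bool) (b e r : ℕ) (he : e < k) (hr : r < k)
    (her : e ≤ b * k + r) :
    ∫⁻ x, (if p then ex 0 e x else 1) *
      Pool.Agent.H99.CE.PF (Pool.Agent.H99.CE.w0 K k k) (b * k + r - e) (shift e x) *
      (if q then ex (b * k + r) ((b + 1) * k) x else 1) * eu v ((b + 1) * k) x ∂(iid ν) ≤
      ENNReal.ofReal (ρ ^ ((b + 1) * k) * Real.exp 2 * uu (kt K k τ) (b * k + r - e)) := by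
  have hWR := (hPFM.2 K).2 k k
  have hPF := (hPFM.1 _ hWR).1
  obtain ⟨s, hs⟩ : ∃ s, b * k + r = e + s := ⟨b * k + r - e, by omega⟩
  obtain ⟨t, ht⟩ : ∃ t, k = r + t := ⟨k - r, by omega⟩
  have hbk : (b + 1) * k = e + (s + t) := by
    have : (b + 1) * k = b * k + k := by ring
    omega
  have hs' : b * k + r - e = s := by omega
  rw [hs']
  have hint : ∀ x : ℕ → ℝ, (if p then ex 0 e x else 1) *
      Pool.Agent.H99.CE.PF (Pool.Agent.H99.CE.w0 K k k) s (shift e x) *
      (if q then ex (b * k + r) ((b + 1) * k) x else 1) * eu v ((b + 1) * k) x =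
      ((if p then ex 0 e x else 1) * eu v e x) *
      ((fun y => (Pool.Agent.H99.CE.PF (Pool.Agent.H99.CE.w0 K k k) s y * eu v s y) *
        ((fun z => (if q then ex 0 t z else 1) * eu v t z) (shift s y))) (shift e x)) := by
    intro x
    have h3 : eu v ((b + 1) * k) x =
        eu v e x * (eu v s (shift e x) * eu v t (shift s (shift e x))) := by
      rw [← eu_add, ← eu_add, ← hbk]
    have h4 : ex 0 t (shift s (shift e x)) = ex (b * k + r) ((b + 1) * k) x := by
      rw [Pool.Agent.H96.Cop.ex_shift, Pool.Agent.H96.Cop.ex_shift]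
      congr 1
      · omega
      · omega
    simp only
    rw [h3, h4]
    cases q <;> simp only [Bool.false_eq_true, if_false, if_true] <;> ring
  rw [lintegral_congr hint]
  have hm1 : Measurable (fun y => Pool.Agent.H99.CE.PF (Pool.Agent.H99.CE.w0 K k k) s y *
      eu v s y) := (hPF s).1.mul (eu_meas v s)
  have hd1 : DepLt s (fun y => Pool.Agent.H99.CE.PF (Pool.Agent.H99.CE.w0 K k k) s y *
      eu v s y) := by
    intro x x' h
    simp only
    rw [(hPF s).2.1 x x' h, eu_dep v s x x' h]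
  have hm2 : Measurable (fun y => (Pool.Agent.H99.CE.PF (Pool.Agent.H99.CE.w0 K k k) s y *
      eu v s y) * ((fun z => (if q then ex 0 t z else 1) * eu v t z) (shift s y))) :=
    hm1.mul ((part_meas q v t).comp (measurable_shift _))
  have i1 := Pool.Agent.H96.Cop.lint_mul_shift ν (part_dep p v e) (part_meas p v e) hm2
  have i2 := Pool.Agent.H96.Cop.lint_mul_shift ν hd1 hm1 (part_meas q v t)
  rw [i1]
  refine (mul_le_mul' le_rfl i2.le).trans ?_
  have j1 := lint_part hEXM ν hν v ρ τ hρ hτ h1 h2 p e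
  have j2 := lint_PF hPFM hEXM K ν hν k v ρ τ hρ hτ hτk h1 h2 s
  have j3 := lint_part hEXM ν hν v ρ τ hρ hτ h1 h2 q t
  refine (mul_le_mul' j1 (mul_le_mul' j2 j3)).trans ?_
  have hu := uu_nonneg (kt K k τ) (kt_nonneg K k τ) s
  rw [← ENNReal.ofReal_mul (by positivity), ← ENNReal.ofReal_mul (by positivity)]
  apply ENNReal.ofReal_le_ofReal
  have hexp : Real.exp τ ^ e * Real.exp τ ^ t ≤ Real.exp 2 := by
    rw [← pow_add, ← Real.exp_nat_mul]
    apply Real.exp_le_exp.mpr
    have ht2 : ((e + t : ℕ) : ℝ) ≤ 2 * k := by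
      have : e + t ≤ 2 * k := by omega
      exact_mod_cast this
    calc ((e + t : ℕ) : ℝ) * τ ≤ 2 * k * τ := mul_le_mul_of_nonneg_right ht2 hτ
      _ = 2 * (τ * k) := by ring
      _ ≤ 2 := by linarith
  calc (ρ * Real.exp τ) ^ e * (ρ ^ s * uu (kt K k τ) s * (ρ * Real.exp τ) ^ t)
      = ρ ^ (e + (s + t)) * (Real.exp τ ^ e * Real.exp τ ^ t) * uu (kt K k τ) s := by
        rw [mul_pow, mul_pow, pow_add, pow_add]
        ring
    _ ≤ ρ ^ (e + (s + t)) * Real.exp 2 * uu (kt K k τ) s := by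
        apply mul_le_mul_of_nonneg_right _ hu
        exact mul_le_mul_of_nonneg_left hexp (by positivity)
    _ = _ := by rw [hbk]

theorem pf_UTX (hPFM : Pool.Agent.H99.CE.T_PFM) (hEXM : T_EXM) : T_UTX := by
  intro K ν _ hν k θ ρ τ _ hρ hτ hτk h1 h2 p q b
  have hWR := (hPFM.2 K).2 k k
  have hPF := (hPFM.1 _ hWR).1
  have h2' : Mo ν (1 + -(1 - θ) / 2) ≤ ρ * Real.exp (-τ) := by
    have : 1 + -(1 - θ) / 2 = (1 + θ) / 2 := by ring
    rw [this]
    exact h2
  have hmt : ∀ e r : ℕ, Measurable (fun x : ℕ → ℝ => (if e ≤ b * k + r then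
      (if p then ex 0 e x else 1) *
      Pool.Agent.H99.CE.PF (Pool.Agent.H99.CE.w0 K k k) (b * k + r - e) (shift e x) *
      (if q then ex (b * k + r) ((b + 1) * k) x else 1) * eu (-(1 - θ) / 2) ((b + 1) * k) x
      else 0)) := by
    intro e r
    split_ifs
    · refine ((Measurable.mul ?_ ((hPF _).1.comp (measurable_shift _))).mul ?_).mul (eu_meas _ _)
      · exact Pool.Agent.H96.Cop.measurable_ex _ _
      · exact Pool.Agent.H96.Cop.measurable_ex _ _
    · refine ((Measurable.mul ?_ ((hPF _).1.comp (measurable_shift _))).mul ?_).mul (eu_meas _ _)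
      · exact Pool.Agent.H96.Cop.measurable_ex _ _
      · exact measurable_const
    · refine ((Measurable.mul ?_ ((hPF _).1.comp (measurable_shift _))).mul ?_).mul (eu_meas _ _)
      · exact measurable_const
      · exact Pool.Agent.H96.Cop.measurable_ex _ _
    · refine ((Measurable.mul ?_ ((hPF _).1.comp (measurable_shift _))).mul ?_).mul (eu_meas _ _)
      · exact measurable_const
      · exact measurable_const
    · exact measurable_const
  have hint : ∀ x : ℕ → ℝ, NX (Pool.Agent.H99.CE.w0 K k k) k p q b x *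
      ENNReal.ofReal (Real.exp (-(1 - θ) / 2 * H x 0 ((b + 1) * k))) =
      ∑ e ∈ Finset.range k, ∑ r ∈ Finset.range k, (if e ≤ b * k + r then
      (if p then ex 0 e x else 1) *
      Pool.Agent.H99.CE.PF (Pool.Agent.H99.CE.w0 K k k) (b * k + r - e) (shift e x) *
      (if q then ex (b * k + r) ((b + 1) * k) x else 1) * eu (-(1 - θ) / 2) ((b + 1) * k) x
      else 0) := by
    intro x
    unfold Pool.Agent.H99.CE.NX
    rw [← eu_def, Finset.sum_mul]
    apply Finset.sum_congr rfl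
    intro e _
    rw [Finset.sum_mul]
    apply Finset.sum_congr rfl
    intro r _
    rw [ite_mul, zero_mul]
  rw [lintegral_congr hint, lintegral_finsetSum _ (fun e _ => Finset.measurable_sum _
    (fun r _ => hmt e r))]
  unfold VB
  have hpos : 0 ≤ ρ ^ ((b + 1) * k) * Real.exp 2 := by positivity
  have hu := uu_nonneg (kt K k τ) (kt_nonneg K k τ)
  rw [Finset.mul_sum, ENNReal.ofReal_sum_of_nonneg]
  · apply Finset.sum_le_sum
    intro e he
    rw [lintegral_finsetSum _ (fun r _ => hmt e r), Finset.mul_sum,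
      ENNReal.ofReal_sum_of_nonneg]
    · apply Finset.sum_le_sum
      intro r hr
      rw [Finset.mem_range] at he hr
      by_cases h : e ≤ b * k + r
      · simp only [if_pos h]
        exact lint_term hPFM hEXM K ν hν k _ ρ τ hρ hτ hτk h1 h2' p q b e r he hr h
      · simp only [if_neg h]
        simp
    · intro r _
      split_ifs
      · exact mul_nonneg hpos (hu _)
      · simp
  · intro e _
    refine mul_nonneg hpos (Finset.sum_nonneg fun r _ => ?_)
    split_ifs
    · exact hu _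
    · exact le_rfl

end Pool.Agent.H88.SLN
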