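import Pool.Agent.H98.SLN.Targets

/-!
# The slope of the copolymer critical curve near `α = 1`: Jensen (helper88)
-/

set_option autoImplicit false

open MeasureTheory ProbabilityTheory Filter Topology
open scoped ENNReal
open Pool.Agent.H95 Pool.Agent.H95.Cop
open Pool.Agent.H55.CG (pz VV Mo)
open Pool.Agent.H98.CE (pc WB HK OBJ)
open Pool.Agent.H96.Cop (ex pk Wn chargeLaw)
open Pool.Agent.H99.CE (NX)

namespace Pool.Agent.H88.SLN

open Pool.Agent.H98.SLN

lemma pz_zero (K : PMF ℕ) (x : ℕ → ℝ) (a : ℕ) : pz K x 0 a = 1 := by rw [pz]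

lemma pz_succ (K : PMF ℕ) (x : ℕ → ℝ) (d a : ℕ) : pz K x (d + 1) a =
    ∑ j ∈ Finset.range (d + 1),
      kk K (j + 1) * wt x a (a + (j + 1)) * pz K x (d - j) (a + (j + 1)) := by
  rw [pz, Finset.sum_range]

lemma pz_nonneg (K : PMF ℕ) (x : ℕ → ℝ) (n : ℕ) : ∀ a, 0 ≤ pz K x n a := by
  induction n using Nat.strong_induction_on with
  | _ n ih =>
    intro a
    cases n with
    | zero => rw [pz_zero]; norm_num
    | succ n =>
      rw [pz_succ]
      apply Finset.sum_nonneg
      intro j hj
      exact mul_nonneg (mul_nonneg (kk_nonneg K _) (wt_pos x _ _).le) (ih _ (by omega) _)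

lemma Sq_zero (K : PMF ℕ) (q : ℕ) (x : ℕ → ℝ) (y : ℕ) : Sq K q x 0 y = 0 := by rw [Sq]

lemma Sq_succ (K : PMF ℕ) (q : ℕ) (x : ℕ → ℝ) (n y : ℕ) : Sq K q x (n + 1) y =
    ∑ j ∈ Finset.range (n + 1), kq K q (j + 1) *
      (lc (H x y (y + (j + 1))) * uq K q (n - j) + Sq K q x (n - j) (y + (j + 1))) := by
  rw [Sq, Finset.sum_range]

lemma uq_zero (K : PMF ℕ) (q : ℕ) : uq K q 0 = 1 := uu_zero _

lemma uq_succ (K : PMF ℕ) (q n : ℕ) : uq K q (n + 1) =
    ∑ j ∈ Finset.range (n + 1), kq K q (j + 1) * uq K q (n - j) := uu_succ _ _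

lemma kq_nonneg (K : PMF ℕ) (q n : ℕ) : 0 ≤ kq K q n := by
  unfold kq
  split_ifs
  · exact kk_nonneg K n
  · exact le_rfl

lemma kq_le (K : PMF ℕ) (q n : ℕ) : kq K q n ≤ kk K n := by
  unfold kq
  split_ifs
  · exact le_rfl
  · exact kk_nonneg K n

lemma H_add (x : ℕ → ℝ) (a b c : ℕ) (h1 : a ≤ b) (h2 : b ≤ c) : H x a c = H x a b + H x b c := by
  unfold H
  exact (Finset.sum_Ico_consecutive x h1 h2).symm

/-- one term of Jensen's inequality -/
lemma jen_term (h1 h2 h l s u k K0 w p m : ℝ) (hh : h = h1 + h2) (hu : 0 < u) (hk : 0 ≤ k)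
    (hkK : k ≤ K0) (hw : w = Real.exp (h1 / 2 + l)) (hp : u * Real.exp (h2 / 2 + s / u) ≤ p) :
    Real.exp (h / 2) * Real.exp m * (k * u * (1 - m) + k * (l * u + s)) ≤ K0 * w * p := by
  have hp0 : 0 ≤ p := le_trans (by positivity) hp
  have h3 : k * u * (1 - m) + k * (l * u + s) = k * u * ((l + s / u - m) + 1) := by
    field_simp
    ring
  have h4 : (l + s / u - m) + 1 ≤ Real.exp (l + s / u - m) := Real.add_one_le_exp _
  calc Real.exp (h / 2) * Real.exp m * (k * u * (1 - m) + k * (l * u + s))
      = k * u * (Real.exp (h / 2) * Real.exp m) * ((l + s / u - m) + 1) := by rw [h3]; ring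
    _ ≤ k * u * (Real.exp (h / 2) * Real.exp m) * Real.exp (l + s / u - m) := by
        apply mul_le_mul_of_nonneg_left h4
        positivity
    _ = k * Real.exp (h1 / 2 + l) * (u * Real.exp (h2 / 2 + s / u)) := by
        have : Real.exp (h / 2) * Real.exp m * Real.exp (l + s / u - m) =
            Real.exp (h1 / 2 + l) * Real.exp (h2 / 2 + s / u) := by
          rw [← Real.exp_add, ← Real.exp_add, ← Real.exp_add]
          congr 1
          rw [hh]
          ring
        calc k * u * (Real.exp (h / 2) * Real.exp m) * Real.exp (l + s / u - m)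
            = k * u * (Real.exp (h / 2) * Real.exp m * Real.exp (l + s / u - m)) := by ring
          _ = _ := by rw [this]; ring
    _ ≤ k * Real.exp (h1 / 2 + l) * p := by
        apply mul_le_mul_of_nonneg_left hp
        positivity
    _ ≤ K0 * w * p := by
        rw [hw]
        apply mul_le_mul_of_nonneg_right _ hp0
        exact mul_le_mul_of_nonneg_right hkK (Real.exp_pos _).le

theorem pf_JEN (hUQB : T_UQB) (hLCB : T_LCB) : T_JEN := by
  intro K q n
  obtain ⟨hu, hS, -⟩ := hUQB K q
  induction n using Nat.strong_induction_on with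
  | _ n ih =>
  intro x y hpos
  cases n with
  | zero =>
    rw [pz_zero, Sq_zero, uq_zero]
    simp [H]
  | succ n =>
    set u : ℝ := uq K q (n + 1) with hudef
    set m : ℝ := Sq K q x (n + 1) y / u with hm
    have hsum : ∑ j ∈ Finset.range (n + 1), (kq K q (j + 1) * uq K q (n - j) * (1 - m) +
        kq K q (j + 1) * (lc (H x y (y + (j + 1))) * uq K q (n - j) +
          Sq K q x (n - j) (y + (j + 1)))) = u := by
      rw [Finset.sum_add_distrib, ← Finset.sum_mul, ← uq_succ, ← Sq_succ, ← hudef]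
      rw [hm]
      field_simp
      ring
    have key : ∀ j ∈ Finset.range (n + 1),
        Real.exp (H x y (y + (n + 1)) / 2) * Real.exp m *
          (kq K q (j + 1) * uq K q (n - j) * (1 - m) +
          kq K q (j + 1) * (lc (H x y (y + (j + 1))) * uq K q (n - j) +
          Sq K q x (n - j) (y + (j + 1)))) ≤
        kk K (j + 1) * wt x y (y + (j + 1)) * pz K x (n - j) (y + (j + 1)) := by
      intro j hj
      rw [Finset.mem_range] at hj
      have hp0 := pz_nonneg K x (n - j) (y + (j + 1))
      rcases (hu (n - j)).1.lt_or_eq with h0 | h0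
      · apply jen_term (H x y (y + (j + 1))) (H x (y + (j + 1)) (y + (j + 1) + (n - j)))
          (H x y (y + (n + 1))) (lc (H x y (y + (j + 1)))) (Sq K q x (n - j) (y + (j + 1)))
          (uq K q (n - j)) (kq K q (j + 1)) (kk K (j + 1)) (wt x y (y + (j + 1)))
          (pz K x (n - j) (y + (j + 1))) m
        · rw [H_add x y (y + (j + 1)) (y + (n + 1)) (by omega) (by omega)]
          congr 2
          omega
        · exact h0
        · exact kq_nonneg K q _
        · exact kq_le K q _
        · exact (hLCB _).2.2.2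
        · exact ih (n - j) (by omega) x (y + (j + 1)) h0
      · rw [← h0, hS (n - j) x (y + (j + 1)) h0.symm]
        simp only [mul_zero, zero_mul, add_zero]
        have := wt_pos x y (y + (j + 1))
        have := kk_nonneg K (j + 1)
        positivity
    have hfin := Finset.sum_le_sum key
    rw [← Finset.mul_sum, hsum, ← pz_succ] at hfin
    calc u * Real.exp (H x y (y + (n + 1)) / 2 + m)
        = Real.exp (H x y (y + (n + 1)) / 2) * Real.exp m * u := by rw [Real.exp_add]; ring
      _ ≤ _ := hfin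

end Pool.Agent.H88.SLN
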